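import Mathlib

set_option autoImplicit false
open Finset

namespace Pool.Agent.Lib.MP_d302ba_co

lemma succ_pow_le (r : ℕ) (hr : 0 < r) : (r + 1) ^ r ≤ 3 * r ^ r := by
  have hr' : (0 : ℝ) < r := by exact_mod_cast hr
  have h1 : ((r : ℝ) + 1) ≤ r * Real.exp (1 / r) := by
    have := Real.add_one_le_exp (1 / (r : ℝ))
    calc ((r : ℝ) + 1) = r * (1 / r + 1) := by field_simp; ring
      _ ≤ r * Real.exp (1 / r) := by gcongr
  have h2 : ((r : ℝ) + 1) ^ r ≤ (r * Real.exp (1 / r)) ^ r := by gcongr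
  have h3 : (r * Real.exp (1 / r) : ℝ) ^ r = (r : ℝ) ^ r * Real.exp 1 := by
    rw [mul_pow, ← Real.exp_nat_mul]; congr 2; field_simp
  have h4 : (r : ℝ) ^ r * Real.exp 1 ≤ 3 * (r : ℝ) ^ r := by
    rw [mul_comm]; gcongr; exact Real.exp_one_lt_three.le
  have : (((r + 1) ^ r : ℕ) : ℝ) ≤ ((3 * r ^ r : ℕ) : ℝ) := by
    push_cast; linarith
  exact_mod_cast this

lemma choose_le_three_mul (X r m : ℕ) (hr : 0 < r) (hX : X ≤ r * m) :
    X.choose m ≤ (3 * r) ^ m := by
  refine (Nat.choose_le_choose m hX).trans ?_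
  have hm : m ≤ r * m := Nat.le_mul_of_pos_left m hr
  have h1 : (r * m).choose m * r ^ (r * m - m) ≤ (r + 1) ^ (r * m) := by
    rw [add_comm r 1, add_pow]
    have := Finset.single_le_sum (f := fun k => 1 ^ k * r ^ (r * m - k) * ((r * m).choose k : ℕ))
      (s := range (r * m + 1)) (fun i _ => Nat.zero_le _) (a := m) (by simp; omega)
    simpa [mul_comm] using this
  have h2 : (r + 1) ^ (r * m) ≤ (3 * r) ^ m * r ^ (r * m - m) := by
    calc (r + 1) ^ (r * m) = ((r + 1) ^ r) ^ m := by rw [pow_mul]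
      _ ≤ (3 * r ^ r) ^ m := by gcongr; exact succ_pow_le r hr
      _ = 3 ^ m * r ^ (r * m) := by rw [mul_pow, ← pow_mul]
      _ = 3 ^ m * (r ^ m * r ^ (r * m - m)) := by rw [← pow_add]; congr 2; omega
      _ = (3 * r) ^ m * r ^ (r * m - m) := by rw [mul_pow]; ring
  exact Nat.le_of_mul_le_mul_right (h1.trans h2) (by positivity)

lemma pow_le_choose_mul (r k : ℕ) : r ^ k ≤ (r * k).choose k := by
  induction k with
  | zero => simp
  | succ k ih =>
    rcases Nat.eq_zero_or_pos r with h | h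
    · subst h; simp
    · obtain ⟨N, hN⟩ : ∃ N, r * (k + 1) = N + 1 := ⟨r * (k + 1) - 1, by
        have : 0 < r * (k + 1) := by positivity
        omega⟩
      have h1 := Nat.add_one_mul_choose_eq N k
      have h2 : (r * k).choose k ≤ N.choose k := Nat.choose_le_choose k (by
        have : r * (k + 1) = r * k + r := by ring
        omega)
      have h3 : r ^ (k + 1) * (k + 1) ≤ (N + 1).choose (k + 1) * (k + 1) := by
        rw [← h1, ← hN]
        calc r ^ (k + 1) * (k + 1) = r * (k + 1) * r ^ k := by ring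
          _ ≤ r * (k + 1) * N.choose k := by gcongr; exact ih.trans h2
      rw [hN]
      exact Nat.le_of_mul_le_mul_right h3 (by omega)

lemma pow_le_choose (X r k : ℕ) (h : r * k ≤ X) : r ^ k ≤ X.choose k :=
  (pow_le_choose_mul r k).trans (Nat.choose_le_choose k h)

lemma choose_sub_mul_le (i : ℕ) : ∀ (N M : ℕ), i ≤ M → M ≤ N →
    (N - i).choose (M - i) * N ^ i ≤ N.choose M * M ^ i := by
  induction i with
  | zero => intro N M _ _; simp
  | succ i ih =>
    intro N M hi hM
    have h1 := ih N M (by omega) hM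
    obtain ⟨a, ha⟩ : ∃ a, N - i = a + 1 := ⟨N - i - 1, by omega⟩
    obtain ⟨b, hb⟩ : ∃ b, M - i = b + 1 := ⟨M - i - 1, by omega⟩
    have h2 := Nat.add_one_mul_choose_eq a b
    have ea : N - (i + 1) = a := by omega
    have eb : M - (i + 1) = b := by omega
    rw [ea, eb]
    rw [ha, hb] at h1
    have h3 : (b + 1) * N ≤ (a + 1) * M := by
      have e1 : N = a + 1 + i := by omega
      have e2 : M = b + 1 + i := by omega
      have e3 : b ≤ a := by omega
      rw [e1, e2]; nlinarith
    have h4 : a.choose b * N ≤ (a + 1).choose (b + 1) * M := by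
      have : (a + 1) * (a.choose b * N) ≤ (a + 1) * ((a + 1).choose (b + 1) * M) := by
        calc (a + 1) * (a.choose b * N) = (a + 1).choose (b + 1) * ((b + 1) * N) := by
              rw [← mul_assoc, h2]; ring
          _ ≤ (a + 1).choose (b + 1) * ((a + 1) * M) := by gcongr
          _ = (a + 1) * ((a + 1).choose (b + 1) * M) := by ring
      exact Nat.le_of_mul_le_mul_left this (by omega)
    calc a.choose b * N ^ (i + 1) = (a.choose b * N) * N ^ i := by ring
      _ ≤ ((a + 1).choose (b + 1) * M) * N ^ i := by gcongr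
      _ = ((a + 1).choose (b + 1) * N ^ i) * M := by ring
      _ ≤ (N.choose M * M ^ i) * M := by gcongr
      _ = N.choose M * M ^ (i + 1) := by ring

/-- deletion method: many `k`-subsets contain no member of `Q` -/
lemma deletion {α : Type*} [DecidableEq α] (Ω : Finset α) (Q : Finset (Finset α)) (k : ℕ)
    (hQ : ∀ R ∈ Q, R ⊆ Ω ∧ R.card = 4) (hk : 2 ≤ k) (hkN : 2 * k ≤ Ω.card)
    (hcond : 2 * Q.card * (2 * k) ^ 4 ≤ k * Ω.card ^ 4) :
    Ω.card.choose (2 * k) ≤
      2 * (((Ω.powersetCard k).filter (fun T => ∀ R ∈ Q, ¬ R ⊆ T)).card * Ω.card.choose k) := by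
  classical
  set N := Ω.card with hN
  set P := Ω.powersetCard (2 * k) with hP
  set cnt : Finset α → ℕ := fun T => (Q.filter (fun R => R ⊆ T)).card with hcnt
  have hsum : ∑ T ∈ P, cnt T = Q.card * (N - 4).choose (2 * k - 4) := by
    have : ∑ T ∈ P, cnt T = ∑ R ∈ Q, (P.filter (fun T => R ⊆ T)).card := by
      simp only [hcnt, Finset.card_filter]
      exact Finset.sum_comm
    rw [this, Finset.sum_congr rfl (g := fun _ => (N - 4).choose (2 * k - 4))]
    · simp
    · intro R hR
      obtain ⟨h1, h2⟩ := hQ R hR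
      rw [hP, Finset.card_filter_powersetCard_subset R Ω (2 * k) h1 (by omega), h2]
  set Bad := P.filter (fun T => k < cnt T) with hBad
  set Good := P.filter (fun T => ¬ k < cnt T) with hGood
  have hPc : P.card = N.choose (2 * k) := by rw [hP, Finset.card_powersetCard]
  have hsplit : Bad.card + Good.card = P.card := Finset.card_filter_add_card_filter_not _
  have hBad1 : Bad.card * k ≤ ∑ T ∈ P, cnt T := by
    calc Bad.card * k = ∑ T ∈ Bad, k := by simp
      _ ≤ ∑ T ∈ Bad, cnt T := Finset.sum_le_sum (fun T hT => (Finset.mem_filter.1 hT).2.le)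
      _ ≤ ∑ T ∈ P, cnt T := Finset.sum_le_sum_of_subset (Finset.filter_subset _ _)
  have hNpos : 0 < N := by omega
  have hBad2 : 2 * Bad.card ≤ P.card := by
    have h1 := choose_sub_mul_le 4 N (2 * k) (by omega) hkN
    have h2 : (2 * Bad.card) * (k * N ^ 4) ≤ P.card * (k * N ^ 4) := by
      calc (2 * Bad.card) * (k * N ^ 4) = 2 * (Bad.card * k) * N ^ 4 := by ring
        _ ≤ 2 * (Q.card * (N - 4).choose (2 * k - 4)) * N ^ 4 := by
            rw [← hsum]; gcongr
        _ = 2 * Q.card * ((N - 4).choose (2 * k - 4) * N ^ 4) := by ring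
        _ ≤ 2 * Q.card * (N.choose (2 * k) * (2 * k) ^ 4) := by gcongr
        _ = N.choose (2 * k) * (2 * Q.card * (2 * k) ^ 4) := by ring
        _ ≤ N.choose (2 * k) * (k * N ^ 4) := by gcongr
        _ = P.card * (k * N ^ 4) := by rw [hPc]
    exact Nat.le_of_mul_le_mul_right h2 (by positivity)
  set Free := (Ω.powersetCard k).filter (fun T => ∀ R ∈ Q, ¬ R ⊆ T) with hFree
  have hGood1 : Good ⊆ (Free ×ˢ Ω.powersetCard k).image (fun p => p.1 ∪ p.2) := by
    intro T hT
    obtain ⟨hT1, hT2⟩ := Finset.mem_filter.1 hT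
    obtain ⟨hT3, hT4⟩ := Finset.mem_powersetCard.1 hT1
    have hne : ∀ R ∈ Q, ∃ x, x ∈ R := fun R hR => by
      have : R.Nonempty := by rw [← Finset.card_pos, (hQ R hR).2]; omega
      exact this
    have : Nonempty α := by
      have : Ω.Nonempty := by rw [← Finset.card_pos]; omega
      exact ⟨this.choose⟩
    choose! f hf using hne
    set D := (Q.filter (fun R => R ⊆ T)).image f with hD
    have hD1 : D.card ≤ k := by
      have : D.card ≤ cnt T := Finset.card_image_le
      omega
    have hD2 : k ≤ (T \ D).card := by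
      have := Finset.le_card_sdiff D T
      omega
    obtain ⟨T', hT'1, hT'2⟩ := Finset.exists_subset_card_eq hD2
    have hT'3 : T' ⊆ T := hT'1.trans Finset.sdiff_subset
    refine Finset.mem_image.2 ⟨(T', T \ T'), Finset.mem_product.2 ⟨?_, ?_⟩, ?_⟩
    · refine Finset.mem_filter.2 ⟨Finset.mem_powersetCard.2 ⟨hT'3.trans hT3, hT'2⟩, ?_⟩
      intro R hR hRT
      have h1 : f R ∈ D := Finset.mem_image.2 ⟨R, Finset.mem_filter.2 ⟨hR, hRT.trans hT'3⟩, rfl⟩
      have h2 : f R ∈ T \ D := hT'1 (hRT (hf R hR))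
      exact (Finset.mem_sdiff.1 h2).2 h1
    · refine Finset.mem_powersetCard.2 ⟨Finset.sdiff_subset.trans hT3, ?_⟩
      show (T \ T').card = k
      rw [Finset.card_sdiff_of_subset hT'3]; omega
    · exact Finset.union_sdiff_of_subset hT'3
  have hGood2 : Good.card ≤ Free.card * N.choose k := by
    calc Good.card ≤ _ := Finset.card_le_card hGood1
      _ ≤ (Free ×ˢ Ω.powersetCard k).card := Finset.card_image_le
      _ = Free.card * N.choose k := by rw [Finset.card_product, Finset.card_powersetCard]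
  omega

end Pool.Agent.Lib.MP_d302ba_co
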