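import Mathlib
import Pool.Agent.Lib.MP_d302ba_co.Binom

set_option autoImplicit false
open Finset

namespace Pool.Agent.Lib.MP_d302ba_co

def NoC4 {V : Type*} (G : SimpleGraph V) : Prop :=
  ∀ a b c d : V, a ≠ c → b ≠ d → G.Adj a b → G.Adj b c → G.Adj c d →
    G.Adj d a → G.Adj a c ∨ G.Adj b d

def IsSplit {V : Type*} (G : SimpleGraph V) : Prop :=
  ∃ S : Set V, (∀ u ∈ S, ∀ v ∈ S, u ≠ v → G.Adj u v) ∧
    (∀ u, u ∉ S → ∀ v, v ∉ S → ¬ G.Adj u v)

lemma split_count {V : Type*} [Fintype V] [DecidableEq V] (m L r : ℕ) (hr : 0 < r)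
    (hL : ∀ l : ℕ, l.choose 2 ≤ m → l ≤ L) (hLr : L * Fintype.card V ≤ r * m) :
    {G : SimpleGraph V | G.edgeSet.ncard = m ∧ IsSplit G}.ncard ≤
      2 ^ Fintype.card V * (3 * r) ^ m := by
  classical
  set Ω : Finset V → Finset (Sym2 V) := fun S => (S ×ˢ (univ : Finset V)).image Sym2.mk.uncurry
    with hΩ
  set A : Finset (Finset (Sym2 V)) := ((univ : Finset (Finset V)).filter (fun S => S.card ≤ L)).biUnion
    (fun S => (Ω S).powersetCard m) with hA
  have hAc : A.card ≤ 2 ^ Fintype.card V * (3 * r) ^ m := by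
    refine (Finset.card_biUnion_le).trans ?_
    calc ∑ S ∈ (univ : Finset (Finset V)).filter (fun S => S.card ≤ L), ((Ω S).powersetCard m).card
        ≤ ∑ S ∈ (univ : Finset (Finset V)).filter (fun S => S.card ≤ L), (3 * r) ^ m := by
          refine Finset.sum_le_sum (fun S hS => ?_)
          rw [Finset.card_powersetCard]
          refine choose_le_three_mul _ r m hr ?_
          have h1 : (Ω S).card ≤ S.card * Fintype.card V := by
            refine Finset.card_image_le.trans ?_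
            rw [Finset.card_product, Finset.card_univ]
          have h2 := (Finset.mem_filter.1 hS).2
          calc (Ω S).card ≤ S.card * Fintype.card V := h1
            _ ≤ L * Fintype.card V := by gcongr
            _ ≤ r * m := hLr
      _ ≤ ∑ S ∈ (univ : Finset (Finset V)), (3 * r) ^ m :=
          Finset.sum_le_sum_of_subset (Finset.filter_subset _ _)
      _ = 2 ^ Fintype.card V * (3 * r) ^ m := by simp
  have hsub : {G : SimpleGraph V | G.edgeSet.ncard = m ∧ IsSplit G} ⊆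
      (fun E : Finset (Sym2 V) => SimpleGraph.fromEdgeSet (E : Set (Sym2 V))) '' (A : Set _) := by
    rintro G ⟨hm, S, hS1, hS2⟩
    have hE : G.edgeFinset.card = m := by
      rw [← hm, ← SimpleGraph.coe_edgeFinset, Set.ncard_coe_finset]
    refine ⟨G.edgeFinset, ?_, by simp⟩
    rw [Finset.mem_coe, hA, Finset.mem_biUnion]
    refine ⟨S.toFinset, Finset.mem_filter.2 ⟨Finset.mem_univ _, hL _ ?_⟩,
      Finset.mem_powersetCard.2 ⟨?_, hE⟩⟩
    · rw [← Sym2.card_image_offDiag, ← hE]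
      refine Finset.card_le_card ?_
      intro e he
      obtain ⟨⟨u, v⟩, huv, rfl⟩ := Finset.mem_image.1 he
      obtain ⟨hu, hv, hne⟩ := Finset.mem_offDiag.1 huv
      simp only [Set.mem_toFinset] at hu hv
      simpa using hS1 u hu v hv hne
    · intro e he
      induction e using Sym2.ind with
      | _ u v =>
        have hadj : G.Adj u v := by simpa using he
        by_cases hu : u ∈ S
        · exact Finset.mem_image.2 ⟨(u, v), by simp [hu], rfl⟩
        · by_cases hv : v ∈ S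
          · exact Finset.mem_image.2 ⟨(v, u), by simp [hv], Sym2.eq_swap⟩
          · exact absurd hadj (hS2 u hu v hv)
  calc _ ≤ ((fun E : Finset (Sym2 V) => SimpleGraph.fromEdgeSet (E : Set (Sym2 V))) ''
        (A : Set _)).ncard := Set.ncard_le_ncard hsub (Set.toFinite _)
    _ ≤ (A : Set (Finset (Sym2 V))).ncard := Set.ncard_image_le (Set.toFinite _)
    _ = A.card := Set.ncard_coe_finset _
    _ ≤ _ := hAc

def hyb {V : Type*} (K : Finset V) (D : Finset (V × V)) : SimpleGraph V where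
  Adj u v := u ≠ v ∧ ((u ∈ K ∧ v ∈ K) ∨ (u, v) ∈ D ∨ (v, u) ∈ D)
  symm := ⟨fun u v h => ⟨h.1.symm, by tauto⟩⟩
  loopless := ⟨fun u h => h.1 rfl⟩

lemma hyb_edgeSet {V : Type*} [DecidableEq V] (K : Finset V) (D : Finset (V × V))
    (hD : ∀ p ∈ D, p.1 ≠ p.2) :
    (hyb K D).edgeSet =
      ((K.offDiag.image Sym2.mk.uncurry ∪ D.image Sym2.mk.uncurry : Finset (Sym2 V)) : Set _) := by
  ext e
  induction e using Sym2.ind with
  | _ u v =>
    rw [SimpleGraph.mem_edgeSet, Finset.mem_coe, Finset.mem_union, Finset.mem_image,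
      Finset.mem_image]
    constructor
    · rintro ⟨hne, h | h | h⟩
      · exact Or.inl ⟨(u, v), Finset.mem_offDiag.2 ⟨h.1, h.2, hne⟩, rfl⟩
      · exact Or.inr ⟨(u, v), h, rfl⟩
      · exact Or.inr ⟨(v, u), h, Sym2.eq_swap⟩
    · rintro (⟨⟨a, b⟩, hab, he⟩ | ⟨⟨a, b⟩, hab, he⟩)
      · obtain ⟨ha, hb, hne⟩ := Finset.mem_offDiag.1 hab
        rcases Sym2.eq_iff.1 he with ⟨rfl, rfl⟩ | ⟨rfl, rfl⟩
        · exact ⟨hne, Or.inl ⟨ha, hb⟩⟩
        · exact ⟨hne.symm, Or.inl ⟨hb, ha⟩⟩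
      · have hne := hD _ hab
        rcases Sym2.eq_iff.1 he with ⟨rfl, rfl⟩ | ⟨rfl, rfl⟩
        · exact ⟨hne, Or.inr (Or.inl hab)⟩
        · exact ⟨hne.symm, Or.inr (Or.inr hab)⟩

lemma hyb_ncard {V : Type*} [DecidableEq V] (K P R : Finset V) (D : Finset (V × V))
    (hPR : Disjoint P R) (hK : K ⊆ P) (hD : D ⊆ P ×ˢ R) :
    (hyb K D).edgeSet.ncard = K.card.choose 2 + D.card := by
  have hD' : ∀ p ∈ D, p.1 ∈ P ∧ p.2 ∈ R := fun p hp => Finset.mem_product.1 (hD hp)
  have hdis : ∀ x, x ∈ P → x ∈ R → False := fun x h1 h2 => Finset.disjoint_left.1 hPR h1 h2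
  rw [hyb_edgeSet K D (fun p hp h => hdis p.1 (hD' p hp).1 (h ▸ (hD' p hp).2)),
    Set.ncard_coe_finset, Finset.card_union_of_disjoint, Sym2.card_image_offDiag,
    Finset.card_image_of_injOn]
  · rintro ⟨a, b⟩ hab ⟨c, d⟩ hcd he
    rcases Sym2.eq_iff.1 he with ⟨rfl, rfl⟩ | ⟨rfl, rfl⟩
    · rfl
    · exact (hdis _ (hD' _ hab).1 (hD' _ hcd).2).elim
  · rw [Finset.disjoint_left]
    intro e h1 h2
    obtain ⟨⟨a, b⟩, hab, rfl⟩ := Finset.mem_image.1 h1
    obtain ⟨⟨c, d⟩, hcd, he⟩ := Finset.mem_image.1 h2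
    obtain ⟨ha, hb, -⟩ := Finset.mem_offDiag.1 hab
    rcases Sym2.eq_iff.1 he with ⟨rfl, rfl⟩ | ⟨rfl, rfl⟩
    · exact hdis _ (hK hb) (hD' _ hcd).2
    · exact hdis _ (hK ha) (hD' _ hcd).2

lemma hyb_inj {V : Type*} (K P R : Finset V) (D D' : Finset (V × V))
    (hPR : Disjoint P R) (hK : K ⊆ P) (hD : D ⊆ P ×ˢ R) (hD' : D' ⊆ P ×ˢ R)
    (h : hyb K D = hyb K D') : D ⊆ D' := by
  have hdis : ∀ x, x ∈ P → x ∈ R → False := fun x h1 h2 => Finset.disjoint_left.1 hPR h1 h2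
  rintro ⟨a, b⟩ hab
  obtain ⟨ha, hb⟩ := Finset.mem_product.1 (hD hab)
  have h1 : (hyb K D).Adj a b := ⟨fun e => hdis a ha (e ▸ hb), Or.inr (Or.inl hab)⟩
  rw [h] at h1
  rcases h1.2 with h2 | h2 | h2
  · exact (hdis b (hK h2.2) hb).elim
  · exact h2
  · exact (hdis b (Finset.mem_product.1 (hD' h2)).1 hb).elim

def rects {V : Type*} [DecidableEq V] (X Y : Finset V) : Finset (Finset (V × V)) :=
  (X.offDiag ×ˢ Y.offDiag).image
    (fun p => {(p.1.1, p.2.1), (p.1.1, p.2.2), (p.1.2, p.2.1), (p.1.2, p.2.2)})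

lemma rects_card_le {V : Type*} [DecidableEq V] (X Y : Finset V) :
    (rects X Y).card ≤ X.card ^ 2 * Y.card ^ 2 := by
  refine Finset.card_image_le.trans ?_
  rw [Finset.card_product, Finset.offDiag_card, Finset.offDiag_card]
  have h1 : X.card * X.card - X.card ≤ X.card ^ 2 := by rw [sq]; omega
  have h2 : Y.card * Y.card - Y.card ≤ Y.card ^ 2 := by rw [sq]; omega
  gcongr

lemma rects_spec {V : Type*} [DecidableEq V] (X Y : Finset V) :
    ∀ R ∈ rects X Y, R ⊆ X ×ˢ Y ∧ R.card = 4 := by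
  intro R hR
  obtain ⟨⟨⟨x, x'⟩, ⟨y, y'⟩⟩, hp, rfl⟩ := Finset.mem_image.1 hR
  obtain ⟨h1, h2⟩ := Finset.mem_product.1 hp
  obtain ⟨hx, hx', hxx⟩ := Finset.mem_offDiag.1 h1
  obtain ⟨hy, hy', hyy⟩ := Finset.mem_offDiag.1 h2
  simp only at hx hx' hxx hy hy' hyy
  constructor
  · intro p hp
    simp only [Finset.mem_insert, Finset.mem_singleton] at hp
    rcases hp with rfl | rfl | rfl | rfl <;> simp [*]
  · rw [Finset.card_eq_four]
    refine ⟨_, _, _, _, ?_, ?_, ?_, ?_, ?_, ?_, rfl⟩ <;> simp [hxx, hyy, hyy.symm]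

lemma hyb_noC4 {V : Type*} [DecidableEq V] (K I X Y : Finset V) (B T : Finset (V × V))
    (hKI : Disjoint K I) (hKX : Disjoint K X) (hKY : Disjoint K Y) (hIX : Disjoint I X)
    (hIY : Disjoint I Y) (hXY : Disjoint X Y)
    (hB : B ⊆ K ×ˢ I) (hT : T ⊆ X ×ˢ Y) (hfree : ∀ R ∈ rects X Y, ¬ R ⊆ T) :
    NoC4 (hyb K (B ∪ T)) := by
  have d1 : ∀ x, x ∈ K → x ∈ I → False := fun x h1 h2 => Finset.disjoint_left.1 hKI h1 h2
  have d2 : ∀ x, x ∈ K → x ∈ X → False := fun x h1 h2 => Finset.disjoint_left.1 hKX h1 h2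
  have d3 : ∀ x, x ∈ K → x ∈ Y → False := fun x h1 h2 => Finset.disjoint_left.1 hKY h1 h2
  have d4 : ∀ x, x ∈ I → x ∈ X → False := fun x h1 h2 => Finset.disjoint_left.1 hIX h1 h2
  have d5 : ∀ x, x ∈ I → x ∈ Y → False := fun x h1 h2 => Finset.disjoint_left.1 hIY h1 h2
  have d6 : ∀ x, x ∈ X → x ∈ Y → False := fun x h1 h2 => Finset.disjoint_left.1 hXY h1 h2
  have key : ∀ u v, (hyb K (B ∪ T)).Adj u v →
      (u ∈ K ∧ v ∈ K) ∨ (u ∈ K ∧ v ∈ I) ∨ (u ∈ I ∧ v ∈ K) ∨
        (u ∈ X ∧ v ∈ Y ∧ (u, v) ∈ T) ∨ (u ∈ Y ∧ v ∈ X ∧ (v, u) ∈ T) := by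
    rintro u v ⟨-, h | h | h⟩
    · exact Or.inl h
    · rcases Finset.mem_union.1 h with h | h
      · exact Or.inr (Or.inl (Finset.mem_product.1 (hB h)))
      · have := Finset.mem_product.1 (hT h)
        exact Or.inr (Or.inr (Or.inr (Or.inl ⟨this.1, this.2, h⟩)))
    · rcases Finset.mem_union.1 h with h | h
      · exact Or.inr (Or.inr (Or.inl (Finset.mem_product.1 (hB h)).symm))
      · have := Finset.mem_product.1 (hT h)
        exact Or.inr (Or.inr (Or.inr (Or.inr ⟨this.2, this.1, h⟩)))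
  have hrect : ∀ x x' y y', x ∈ X → x' ∈ X → y ∈ Y → y' ∈ Y → x ≠ x' → y ≠ y' →
      (x, y) ∈ T → (x, y') ∈ T → (x', y) ∈ T → (x', y') ∈ T → False := by
    intro x x' y y' hx hx' hy hy' hxx hyy t1 t2 t3 t4
    refine hfree {(x, y), (x, y'), (x', y), (x', y')} (Finset.mem_image.2 ⟨((x, x'), (y, y')),
      Finset.mem_product.2 ⟨Finset.mem_offDiag.2 ⟨hx, hx', hxx⟩,
        Finset.mem_offDiag.2 ⟨hy, hy', hyy⟩⟩, rfl⟩) ?_
    intro p hp
    simp only [Finset.mem_insert, Finset.mem_singleton] at hp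
    rcases hp with rfl | rfl | rfl | rfl <;> assumption
  have keyX : ∀ u v, (hyb K (B ∪ T)).Adj u v → u ∈ X → v ∈ Y ∧ (u, v) ∈ T := by
    intro u v h hu
    rcases key u v h with h | h | h | h | h
    · exact (d2 u h.1 hu).elim
    · exact (d2 u h.1 hu).elim
    · exact (d4 u h.1 hu).elim
    · exact h.2
    · exact (d6 u hu h.1).elim
  have keyY : ∀ u v, (hyb K (B ∪ T)).Adj u v → u ∈ Y → v ∈ X ∧ (v, u) ∈ T := by
    intro u v h hu
    rcases key u v h with h | h | h | h | h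
    · exact (d3 u h.1 hu).elim
    · exact (d3 u h.1 hu).elim
    · exact (d5 u h.1 hu).elim
    · exact (d6 u h.1 hu).elim
    · exact h.2
  have keyI : ∀ u v, (hyb K (B ∪ T)).Adj u v → u ∉ X → u ∉ Y → u ∉ K → v ∈ K := by
    intro u v h h1 h2 h3
    rcases key u v h with h | h | h | h | h
    · exact h.2
    · exact (h3 h.1).elim
    · exact h.2
    · exact (h1 h.1).elim
    · exact (h2 h.1).elim
  intro a b c d hac hbd hab hbc hcd hda
  by_cases haX : a ∈ X
  · obtain ⟨hb, t1⟩ := keyX a b hab haX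
    obtain ⟨hc, t2⟩ := keyY b c hbc hb
    obtain ⟨hd, t3⟩ := keyX c d hcd hc
    obtain ⟨-, t4⟩ := keyY d a hda hd
    exact (hrect a c b d haX hc hb hd hac hbd t1 t4 t2 t3).elim
  by_cases haY : a ∈ Y
  · obtain ⟨hb, t1⟩ := keyY a b hab haY
    obtain ⟨hc, t2⟩ := keyX b c hbc hb
    obtain ⟨hd, t3⟩ := keyY c d hcd hc
    obtain ⟨-, t4⟩ := keyX d a hda hd
    exact (hrect b d a c hb hd haY hc hbd hac t1 t2 t4 t3).elim
  by_cases haK : a ∈ K
  · by_cases hcK : c ∈ K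
    · exact Or.inl ⟨hac, Or.inl ⟨haK, hcK⟩⟩
    · have hcX : c ∉ X := fun hc => by
        obtain ⟨hd, -⟩ := keyX c d hcd hc
        exact haX (keyY d a hda hd).1
      have hcY : c ∉ Y := fun hc => by
        obtain ⟨hd, -⟩ := keyY c d hcd hc
        exact haY (keyX d a hda hd).1
      exact Or.inr ⟨hbd, Or.inl ⟨keyI c b hbc.symm hcX hcY hcK, keyI c d hcd hcX hcY hcK⟩⟩
  · exact Or.inr ⟨hbd, Or.inl ⟨keyI a b hab haX haY haK, keyI a d hda.symm haX haY haK⟩⟩

lemma hyb_count {V : Type*} [Fintype V] [DecidableEq V] (K I X Y : Finset V) (m1 k : ℕ)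
    (hKI : Disjoint K I) (hKX : Disjoint K X) (hKY : Disjoint K Y) (hIX : Disjoint I X)
    (hIY : Disjoint I Y) (hXY : Disjoint X Y) :
    (K.card * I.card).choose m1 *
      (((X ×ˢ Y).powersetCard k).filter (fun T => ∀ R ∈ rects X Y, ¬ R ⊆ T)).card ≤
    {G : SimpleGraph V | G.edgeSet.ncard = K.card.choose 2 + m1 + k ∧ NoC4 G}.ncard := by
  classical
  set Bs := (K ×ˢ I).powersetCard m1 with hBs
  set Ts := ((X ×ˢ Y).powersetCard k).filter (fun T => ∀ R ∈ rects X Y, ¬ R ⊆ T) with hTs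
  have hPR : Disjoint (K ∪ X) (I ∪ Y) := by
    simp only [Finset.disjoint_union_left, Finset.disjoint_union_right]
    exact ⟨⟨hKI, hIX.symm⟩, ⟨hKY, hXY⟩⟩
  have hdisj : Disjoint (K ×ˢ I) (X ×ˢ Y) := by
    rw [Finset.disjoint_left]
    intro p h1 h2
    exact Finset.disjoint_left.1 hKX (Finset.mem_product.1 h1).1 (Finset.mem_product.1 h2).1
  have hsub : ∀ B T, B ⊆ K ×ˢ I → T ⊆ X ×ˢ Y → B ∪ T ⊆ (K ∪ X) ×ˢ (I ∪ Y) := by
    intro B T hB hT
    refine Finset.union_subset (hB.trans ?_) (hT.trans ?_)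
    · exact Finset.product_subset_product Finset.subset_union_left Finset.subset_union_left
    · exact Finset.product_subset_product Finset.subset_union_right Finset.subset_union_right
  have hc : (K.card * I.card).choose m1 * Ts.card = 
      (((Bs ×ˢ Ts : Finset (Finset (V × V) × Finset (V × V))) :
        Set (Finset (V × V) × Finset (V × V)))).ncard := by
    rw [Set.ncard_coe_finset, Finset.card_product, hBs, Finset.card_powersetCard,
      Finset.card_product]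
  rw [hc]
  refine Set.ncard_le_ncard_of_injOn (fun p => hyb K (p.1 ∪ p.2)) ?_ ?_ (Set.toFinite _)
  · rintro ⟨B, T⟩ hp
    obtain ⟨hB, hT⟩ := Finset.mem_product.1 (Finset.mem_coe.1 hp)
    obtain ⟨hB1, hB2⟩ := Finset.mem_powersetCard.1 hB
    obtain ⟨hT0, hT3⟩ := Finset.mem_filter.1 hT
    obtain ⟨hT1, hT2⟩ := Finset.mem_powersetCard.1 hT0
    refine ⟨?_, hyb_noC4 K I X Y B T hKI hKX hKY hIX hIY hXY hB1 hT1 hT3⟩
    rw [hyb_ncard K (K ∪ X) (I ∪ Y) _ hPR Finset.subset_union_left (hsub B T hB1 hT1),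
      Finset.card_union_of_disjoint (Finset.disjoint_of_subset_left hB1
        (Finset.disjoint_of_subset_right hT1 hdisj))]
    have e1 : B.card = m1 := hB2
    have e2 : T.card = k := hT2
    show K.card.choose 2 + (B.card + T.card) = _
    omega
  · rintro ⟨B, T⟩ hp ⟨B', T'⟩ hp' h
    obtain ⟨hB, hT⟩ := Finset.mem_product.1 (Finset.mem_coe.1 hp)
    obtain ⟨hB', hT'⟩ := Finset.mem_product.1 (Finset.mem_coe.1 hp')
    have hB1 : B ⊆ K ×ˢ I := (Finset.mem_powersetCard.1 hB).1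
    have hT1 : T ⊆ X ×ˢ Y := (Finset.mem_powersetCard.1 (Finset.mem_filter.1 hT).1).1
    have hB1' : B' ⊆ K ×ˢ I := (Finset.mem_powersetCard.1 hB').1
    have hT1' : T' ⊆ X ×ˢ Y := (Finset.mem_powersetCard.1 (Finset.mem_filter.1 hT').1).1
    have e : B ∪ T = B' ∪ T' := Finset.Subset.antisymm
      (hyb_inj K _ _ _ _ hPR Finset.subset_union_left (hsub _ _ hB1 hT1) (hsub _ _ hB1' hT1') h)
      (hyb_inj K _ _ _ _ hPR Finset.subset_union_left (hsub _ _ hB1' hT1') (hsub _ _ hB1 hT1)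
        h.symm)
    have dl : ∀ p : V × V, p ∈ K ×ˢ I → p ∈ X ×ˢ Y → False :=
      fun p h1 h2 => Finset.disjoint_left.1 hdisj h1 h2
    have eB : B = B' := by
      ext p
      constructor
      · intro hp
        have : p ∈ B' ∪ T' := e ▸ Finset.mem_union_left _ hp
        rcases Finset.mem_union.1 this with h | h
        · exact h
        · exact (dl p (hB1 hp) (hT1' h)).elim
      · intro hp
        have : p ∈ B ∪ T := e ▸ Finset.mem_union_left _ hp
        rcases Finset.mem_union.1 this with h | h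
        · exact h
        · exact (dl p (hB1' hp) (hT1 h)).elim
    have eT : T = T' := by
      ext p
      constructor
      · intro hp
        have : p ∈ B' ∪ T' := e ▸ Finset.mem_union_right _ hp
        rcases Finset.mem_union.1 this with h | h
        · exact (dl p (hB1' h) (hT1 hp)).elim
        · exact h
      · intro hp
        have : p ∈ B ∪ T := e ▸ Finset.mem_union_right _ hp
        rcases Finset.mem_union.1 this with h | h
        · exact (dl p (hB1 h) (hT1' hp)).elim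
        · exact h
    rw [eB, eT]

end Pool.Agent.Lib.MP_d302ba_co
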