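import Mathlib
import Pool.Agent.Lib.MP_d302ba_co.Graphs

set_option autoImplicit false
open Finset

namespace Pool.Agent.Lib.MP_d302ba_co

lemma exists_four {V : Type*} [Fintype V] [DecidableEq V] (a l : ℕ)
    (h : 3 * a + l ≤ Fintype.card V) :
    ∃ K I X Y : Finset V, K.card = l ∧ I.card = a ∧ X.card = a ∧ Y.card = a ∧
      Disjoint K I ∧ Disjoint K X ∧ Disjoint K Y ∧ Disjoint I X ∧ Disjoint I Y ∧ Disjoint X Y := by
  obtain ⟨X, -, hX⟩ := Finset.exists_subset_card_eq (s := (univ : Finset V)) (n := a)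
    (by rw [Finset.card_univ]; omega)
  obtain ⟨Y, hY1, hY⟩ := Finset.exists_subset_card_eq (s := Xᶜ) (n := a)
    (by rw [Finset.card_compl]; omega)
  have hXY := Finset.card_union_le X Y
  obtain ⟨I, hI1, hI⟩ := Finset.exists_subset_card_eq (s := (X ∪ Y)ᶜ) (n := a)
    (by rw [Finset.card_compl]; omega)
  have hXYI := Finset.card_union_le (X ∪ Y) I
  obtain ⟨K, hK1, hK⟩ := Finset.exists_subset_card_eq (s := (X ∪ Y ∪ I)ᶜ) (n := l)
    (by rw [Finset.card_compl]; omega)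
  refine ⟨K, I, X, Y, hK, hI, hX, hY, ?_, ?_, ?_, ?_, ?_, ?_⟩ <;> rw [Finset.disjoint_left] <;>
    intro x h1 h2
  · have := hK1 h1; simp [h2] at this
  · have := hK1 h1; simp [h2] at this
  · have := hK1 h1; simp [h2] at this
  · have := hI1 h1; simp [h2] at this
  · have := hI1 h1; simp [h2] at this
  · have := hY1 h2; simp [h1] at this

lemma numeric (w r q h c m1 n S F H : ℕ) (hw : 0 < w) (hr : 0 < r) (hq : q = 32 * w * r)
    (hbig : (2304 * w) ^ (64 * w) ≤ q) (hc : c ≤ h) (hm : c + m1 + 2 * h = 64 * w * h)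
    (hn : n + 2 ≤ 64 * w * h)
    (hS : S ≤ 2 ^ n * (3 * (2 * q)) ^ (64 * w * h))
    (hF : (q ^ 2) ^ (2 * (2 * h)) ≤ 2 * (F * (3 * (2 * q ^ 2)) ^ (2 * h)))
    (hH : r ^ m1 * F ≤ H) : 2 * S ≤ H := by
  set m := 64 * w * h with hmdef
  have hqpos : 0 < q := by rw [hq]; positivity
  have hpos : 0 < 2 * (3 * (2 * q ^ 2)) ^ (2 * h) * (32 * w) ^ m1 := by positivity
  refine Nat.le_of_mul_le_mul_right ?_ hpos
  have e1 : q ^ (m1 + 8 * h) ≤ H * (2 * (3 * (2 * q ^ 2)) ^ (2 * h) * (32 * w) ^ m1) := by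
    calc q ^ (m1 + 8 * h) = (r ^ m1 * (32 * w) ^ m1) * (q ^ 2) ^ (2 * (2 * h)) := by
          rw [← mul_pow, ← pow_mul, pow_add]; congr 2
          · rw [hq]; ring
          · ring
      _ ≤ (r ^ m1 * (32 * w) ^ m1) * (2 * (F * (3 * (2 * q ^ 2)) ^ (2 * h))) := by gcongr
      _ = (r ^ m1 * F) * (2 * (3 * (2 * q ^ 2)) ^ (2 * h) * (32 * w) ^ m1) := by ring
      _ ≤ _ := by gcongr
  refine le_trans ?_ e1
  have e2 : 2 ^ (n + 2) * 6 ^ m * 6 ^ (2 * h) * (32 * w) ^ m1 ≤ q ^ h := by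
    calc 2 ^ (n + 2) * 6 ^ m * 6 ^ (2 * h) * (32 * w) ^ m1
        ≤ 2 ^ m * 6 ^ m * 6 ^ m * (32 * w) ^ m := by
          have a1 : 2 ^ (n + 2) ≤ 2 ^ m := Nat.pow_le_pow_right (by norm_num) hn
          have a2 : 6 ^ (2 * h) ≤ 6 ^ m := Nat.pow_le_pow_right (by norm_num) (by omega)
          have a3 : (32 * w) ^ m1 ≤ (32 * w) ^ m := Nat.pow_le_pow_right (by omega) (by omega)
          gcongr
      _ = (2304 * w) ^ m := by rw [← mul_pow, ← mul_pow, ← mul_pow]; congr 1; ring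
      _ = ((2304 * w) ^ (64 * w)) ^ h := by rw [← pow_mul]
      _ ≤ q ^ h := by gcongr
  have e3 : (3 * (2 * q)) ^ m = 6 ^ m * q ^ m := by rw [← mul_pow]; congr 1; ring
  have e4 : (3 * (2 * q ^ 2)) ^ (2 * h) = 6 ^ (2 * h) * q ^ (4 * h) := by
    rw [show 4 * h = 2 * (2 * h) by ring, pow_mul q 2, ← mul_pow]; congr 1; ring
  calc 2 * S * (2 * (3 * (2 * q ^ 2)) ^ (2 * h) * (32 * w) ^ m1)
      ≤ 2 * (2 ^ n * (3 * (2 * q)) ^ m) * (2 * (3 * (2 * q ^ 2)) ^ (2 * h) * (32 * w) ^ m1) := by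
        gcongr
    _ = (2 ^ (n + 2) * 6 ^ m * 6 ^ (2 * h) * (32 * w) ^ m1) * (q ^ m * q ^ (4 * h)) := by
        rw [e3, e4, pow_add]; ring
    _ ≤ q ^ h * (q ^ m * q ^ (4 * h)) := by gcongr
    _ = q ^ (h + m + 4 * h) := by rw [pow_add, pow_add]; ring
    _ ≤ q ^ (m1 + 8 * h) := Nat.pow_le_pow_right hqpos (by omega)

lemma two_split_le {V : Type*} [Fintype V] [DecidableEq V] (w r q : ℕ) (hw : 0 < w) (hr : 0 < r)
    (hq : q = 32 * w * r) (hbig : (2304 * w) ^ (64 * w) ≤ q) (hV : Fintype.card V = q ^ 3) :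
    2 * {G : SimpleGraph V | G.edgeSet.ncard = w * q ^ 4 ∧ IsSplit G}.ncard ≤
      {G : SimpleGraph V | G.edgeSet.ncard = w * q ^ 4 ∧ NoC4 G}.ncard := by
  classical
  obtain ⟨u, hu⟩ : ∃ u, u = w * r := ⟨_, rfl⟩
  have hupos : 0 < u := by rw [hu]; positivity
  have hq' : q = 32 * u := by rw [hq, hu]; ring
  have hqpos : 0 < q := by omega
  obtain ⟨a, ha⟩ : ∃ a, a = 8 * u * q ^ 2 := ⟨_, rfl⟩
  obtain ⟨l, hl⟩ : ∃ l, l = 4 * u * q := ⟨_, rfl⟩
  obtain ⟨h, hh⟩ : ∃ h, h = 16 * u ^ 2 * q ^ 2 := ⟨_, rfl⟩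
  have hm : w * q ^ 4 = 64 * w * h := by rw [hh, hq']; ring
  have hq2 : q ≤ q ^ 2 := by nlinarith
  have hla : l ≤ a := by rw [hl, ha]; nlinarith
  obtain ⟨K, I, X, Y, hK, hI, hX, hY, d1, d2, d3, d4, d5, d6⟩ :=
    exists_four (V := V) a l (by
      have : q ^ 3 = 4 * a := by rw [ha, hq']; ring
      omega)
  have hc : l.choose 2 ≤ h := by
    have : l * l = h := by rw [hl, hh]; ring
    rw [Nat.choose_two_right]
    have : l * (l - 1) ≤ l * l := Nat.mul_le_mul_left _ (by omega)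
    omega
  have h3 : 3 * h ≤ 64 * w * h := Nat.mul_le_mul_right _ (by omega)
  obtain ⟨m1, hm1⟩ : ∃ m1, m1 = 64 * w * h - 2 * h - l.choose 2 := ⟨_, rfl⟩
  have hsum : l.choose 2 + m1 + 2 * h = 64 * w * h := by omega
  have hhy := hyb_count K I X Y m1 (2 * h) d1 d2 d3 d4 d5 d6
  rw [hK, hI, hsum, ← hm] at hhy
  have hcard : (X ×ˢ Y).card = a * a := by rw [Finset.card_product, hX, hY]
  have hh1 : 1 ≤ h := by rw [hh]; exact Nat.one_le_iff_ne_zero.2 (by positivity)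
  have haa : a * a = q ^ 2 * (2 * (2 * h)) := by rw [ha, hh, hq']; ring
  have hq21 : 1 ≤ q ^ 2 := Nat.one_le_iff_ne_zero.2 (by positivity)
  have hdel := deletion (X ×ˢ Y) (rects X Y) (2 * h) (rects_spec X Y) (by omega)
    (by rw [hcard, haa]; exact Nat.le_mul_of_pos_left _ hq21)
    (by
      have h1 := rects_card_le X Y
      rw [hX, hY] at h1
      rw [hcard]
      have h2 : 4 * (2 * (2 * (2 * h)) ^ 4) = 2 * h * a ^ 4 := by rw [ha, hh, hq']; ring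
      calc 2 * (rects X Y).card * (2 * (2 * h)) ^ 4
          ≤ 2 * (a ^ 2 * a ^ 2) * (2 * (2 * h)) ^ 4 := by gcongr
        _ = a ^ 4 * (2 * (2 * (2 * h)) ^ 4) := by ring
        _ ≤ a ^ 4 * (2 * h * a ^ 4) := Nat.mul_le_mul_left _ (by omega)
        _ = 2 * h * (a * a) ^ 4 := by ring)
  rw [hcard] at hdel
  refine numeric w r q h (l.choose 2) m1 (q ^ 3) _
    (((X ×ˢ Y).powersetCard (2 * h)).filter (fun T => ∀ R ∈ rects X Y, ¬ R ⊆ T)).card _
    hw hr hq hbig hc hsum ?_ ?_ ?_ ?_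
  · rw [← hm]
    have : q ^ 4 = q ^ 3 * q := by ring
    have h5 : 1 ≤ q ^ 3 := Nat.one_le_iff_ne_zero.2 (by positivity)
    have h6 : q ^ 4 ≤ w * q ^ 4 := Nat.le_mul_of_pos_left _ hw
    have h7 : q ^ 3 * 32 ≤ q ^ 3 * q := Nat.mul_le_mul_left _ (by omega)
    omega
  · rw [← hm, ← hV]
    refine split_count (w * q ^ 4) (2 * w * q ^ 2) (2 * q) (by omega) ?_ ?_
    · intro t ht
      by_contra hcon
      push Not at hcon
      rw [Nat.choose_two_right] at ht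
      have h7 : (2 * w * q ^ 2) * (2 * w * q ^ 2) ≤ t * (t - 1) :=
        Nat.mul_le_mul hcon.le (by omega)
      have h8 : (2 * w * q ^ 2) * (2 * w * q ^ 2) = 4 * w * (w * q ^ 4) := by ring
      have h9 : 1 ≤ w * q ^ 4 := Nat.one_le_iff_ne_zero.2 (by positivity)
      have h10 : 4 * (w * q ^ 4) ≤ 4 * w * (w * q ^ 4) := Nat.mul_le_mul_right _ (by omega)
      omega
    · rw [hV]; apply le_of_eq; ring
  · refine (pow_le_choose (a * a) (q ^ 2) (2 * (2 * h)) haa.ge).trans (hdel.trans ?_)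
    have := choose_le_three_mul (a * a) (2 * q ^ 2) (2 * h) (by omega) (by rw [haa]; apply le_of_eq; ring)
    gcongr
  · refine le_trans ?_ hhy
    have : r ^ m1 ≤ (l * a).choose m1 := pow_le_choose _ _ _ (by
      have e : l * a = r * (64 * w * h) := by rw [hl, ha, hh, hq', hu]; ring
      rw [e]; exact Nat.mul_le_mul_left _ (by omega))
    gcongr

end Pool.Agent.Lib.MP_d302ba_co
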