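import Mathlib
import Pool.Agent.Lib.MP_d302ba_co.Main

set_option autoImplicit false
open Filter Asymptotics

namespace Pool.Agent.Lib.MP_d302ba_co

def aa (n : ℕ) : ℕ := Nat.log 2 n / 3

def mm (n : ℕ) : ℕ := Nat.sqrt (aa n) * (2 ^ aa n) ^ 4

lemma aa_ge (A n : ℕ) (h : 2 ^ (3 * A) ≤ n) : A ≤ aa n := by
  have : 3 * A ≤ Nat.log 2 n := Nat.le_log_of_pow_le (by norm_num) h
  unfold aa; omega

lemma lt_aa (n : ℕ) : n < 2 ^ (3 * aa n + 3) := by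
  have h1 : n < 2 ^ (Nat.log 2 n + 1) := Nat.lt_pow_succ_log_self (by norm_num) n
  exact h1.trans_le (Nat.pow_le_pow_right (by norm_num) (by unfold aa; omega))

lemma aa_le (n : ℕ) (hn : n ≠ 0) : 2 ^ (3 * aa n) ≤ n := by
  have h1 : 2 ^ Nat.log 2 n ≤ n := Nat.pow_log_le_self 2 hn
  exact (Nat.pow_le_pow_right (by norm_num) (by unfold aa; omega)).trans h1

lemma mm_littleO : (fun n : ℕ => (n : ℝ) ^ ((4 : ℝ) / 3) * (Real.log n) ^ ((1 : ℝ) / 3))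
    =o[atTop] (fun n : ℕ => (mm n : ℝ)) := by
  rw [Asymptotics.isLittleO_iff]
  intro ε hε
  obtain ⟨W, hW⟩ := exists_nat_ge (49152 / ε ^ 3)
  filter_upwards [eventually_ge_atTop (2 ^ (3 * ((W + 1) * (W + 1))))] with n hn
  have hA := aa_ge _ _ hn
  set A := aa n with hAdef
  set w := Nat.sqrt A with hw
  have hwW : W + 1 ≤ w := Nat.le_sqrt.2 hA
  have hAw : A < (w + 1) * (w + 1) := Nat.lt_succ_sqrt A
  have hn1 : 1 ≤ n := le_trans Nat.one_le_two_pow hn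
  have hn1' : (1 : ℝ) ≤ n := by exact_mod_cast hn1
  have hlog0 : 0 ≤ Real.log n := Real.log_nonneg hn1'
  have hlt : (n : ℝ) ≤ 2 ^ (3 * A + 3) := by exact_mod_cast (lt_aa n).le
  have hlog : Real.log n ≤ 12 * (w : ℝ) ^ 2 := by
    have h1 : Real.log n ≤ Real.log (2 ^ (3 * A + 3)) := Real.log_le_log (by linarith) hlt
    rw [Real.log_pow] at h1
    have h2 : Real.log 2 ≤ 1 := by
      have := Real.log_two_lt_d9; linarith
    have h3 : ((3 * A + 3 : ℕ) : ℝ) * Real.log 2 ≤ ((3 * A + 3 : ℕ) : ℝ) :=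
      mul_le_of_le_one_right (by positivity) h2
    have h4 : 3 * A + 3 ≤ 12 * w ^ 2 := by nlinarith
    have h5 : ((3 * A + 3 : ℕ) : ℝ) ≤ 12 * (w : ℝ) ^ 2 := by exact_mod_cast h4
    linarith
  have hf0 : 0 ≤ (n : ℝ) ^ ((4 : ℝ) / 3) * (Real.log n) ^ ((1 : ℝ) / 3) := by positivity
  rw [Real.norm_of_nonneg hf0, Real.norm_of_nonneg (by positivity)]
  refine le_of_pow_le_pow_left₀ (n := 3) (by norm_num) (by positivity) ?_
  have e1 : ((n : ℝ) ^ ((4 : ℝ) / 3) * (Real.log n) ^ ((1 : ℝ) / 3)) ^ 3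
      = (n : ℝ) ^ 4 * Real.log n := by
    rw [mul_pow, ← Real.rpow_natCast, ← Real.rpow_natCast ((Real.log n) ^ ((1 : ℝ) / 3)),
      ← Real.rpow_mul (by positivity), ← Real.rpow_mul hlog0]
    norm_num
  rw [e1]
  have e2 : (mm n : ℝ) = w * (2 ^ A) ^ 4 := by
    unfold mm; push_cast; rfl
  rw [e2]
  have hq : (n : ℝ) ≤ 8 * (2 ^ A) ^ 3 := by
    calc (n : ℝ) ≤ 2 ^ (3 * A + 3) := hlt
      _ = 8 * (2 ^ A) ^ 3 := by rw [← pow_mul, pow_add]; ring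
  have hε3 : 0 < ε ^ 3 := by positivity
  have hw2 : 49152 ≤ ε ^ 3 * w := by
    have h1 : (W : ℝ) ≤ w := by exact_mod_cast (by omega : W ≤ w)
    rw [div_le_iff₀ hε3] at hW
    nlinarith
  calc (n : ℝ) ^ 4 * Real.log n ≤ (8 * (2 ^ A) ^ 3) ^ 4 * (12 * (w : ℝ) ^ 2) := by gcongr
    _ = 49152 * ((w : ℝ) ^ 2 * (2 ^ A) ^ 12) := by ring
    _ ≤ (ε ^ 3 * w) * ((w : ℝ) ^ 2 * (2 ^ A) ^ 12) := by gcongr
    _ = (ε * (w * (2 ^ A) ^ 4)) ^ 3 := by ring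

lemma mm_upper : ∃ c : ℝ, 0 < c ∧
    ∀ᶠ n in atTop, (mm n : ℝ) ≤ ((n.choose 2 : ℕ) : ℝ) - c * (n : ℝ) ^ 2 := by
  refine ⟨1 / 8, by norm_num, ?_⟩
  filter_upwards [eventually_ge_atTop (2 ^ (3 * 3))] with n hn
  have hA := aa_ge _ _ hn
  have hn0 : n ≠ 0 := by omega
  have h1 := aa_le n hn0
  set A := aa n with hAdef
  have h2 : Nat.sqrt A ≤ 2 ^ A := (Nat.sqrt_le_self A).trans Nat.lt_two_pow_self.le
  have h3 : 8 ≤ 2 ^ A := by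
    calc 8 = 2 ^ 3 := by norm_num
      _ ≤ 2 ^ A := Nat.pow_le_pow_right (by norm_num) hA
  have h4 : 8 * mm n ≤ n ^ 2 := by
    calc 8 * mm n = 8 * (Nat.sqrt A * (2 ^ A) ^ 4) := rfl
      _ ≤ 2 ^ A * (2 ^ A * (2 ^ A) ^ 4) := by gcongr
      _ = (2 ^ (3 * A)) ^ 2 := by rw [mul_comm 3 A, pow_mul]; ring
      _ ≤ n ^ 2 := by gcongr
  have h5 : (8 : ℝ) * mm n ≤ (n : ℝ) ^ 2 := by exact_mod_cast h4
  rw [Nat.cast_choose_two]
  have h6 : (512 : ℝ) ≤ n := by exact_mod_cast hn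
  nlinarith

def nn (j : ℕ) : ℕ := (2 ^ (2 ^ j * 2 ^ j)) ^ 3

lemma aa_nn (j : ℕ) : aa (nn j) = 2 ^ j * 2 ^ j := by
  unfold aa nn
  rw [← pow_mul, Nat.log_pow (by norm_num)]; omega

lemma mm_nn (j : ℕ) : mm (nn j) = 2 ^ j * (2 ^ (2 ^ j * 2 ^ j)) ^ 4 := by
  unfold mm
  rw [aa_nn, Nat.sqrt_eq]

lemma nn_tendsto : Tendsto nn atTop atTop := by
  refine tendsto_atTop_mono (f := id) (fun j => ?_) tendsto_id
  have h1 : j ≤ 2 ^ j := Nat.lt_two_pow_self.le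
  have h2 : 2 ^ j ≤ 2 ^ j * 2 ^ j := Nat.le_mul_of_pos_left _ (by positivity)
  have h3 : 2 ^ j * 2 ^ j ≤ 2 ^ (2 ^ j * 2 ^ j) := Nat.lt_two_pow_self.le
  have h4 : 2 ^ (2 ^ j * 2 ^ j) ≤ (2 ^ (2 ^ j * 2 ^ j)) ^ 3 :=
    Nat.le_self_pow (by norm_num) _
  show j ≤ (2 ^ (2 ^ j * 2 ^ j)) ^ 3
  omega

lemma lin_le_two_pow (j : ℕ) (hj : 11 ≤ j) : 64 * (12 + j) ≤ 2 ^ j := by
  induction j, hj using Nat.le_induction with
  | base => norm_num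
  | succ k hk ih => rw [pow_succ]; omega

lemma two_split_le_nn (j : ℕ) (hj : 11 ≤ j) :
    2 * {G : SimpleGraph (Fin (nn j)) | G.edgeSet.ncard = mm (nn j) ∧ IsSplit G}.ncard ≤
      {G : SimpleGraph (Fin (nn j)) | G.edgeSet.ncard = mm (nn j) ∧ NoC4 G}.ncard := by
  have h1 := lin_le_two_pow j hj
  have h2 : 2 ^ j ≤ 2 ^ j * 2 ^ j := Nat.le_mul_of_pos_left _ (by positivity)
  rw [mm_nn]
  refine two_split_le (2 ^ j) (2 ^ (2 ^ j * 2 ^ j - (5 + j))) _ (by positivity) (by positivity)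
    ?_ ?_ (Fintype.card_fin _)
  · obtain ⟨N, hN⟩ : ∃ N, N = 2 ^ j * 2 ^ j := ⟨_, rfl⟩
    rw [← hN] at h2 ⊢
    rw [show 32 = 2 ^ 5 by norm_num, ← pow_add, ← pow_add]
    congr 1; omega
  · calc (2304 * 2 ^ j) ^ (64 * 2 ^ j) ≤ (2 ^ 12 * 2 ^ j) ^ (64 * 2 ^ j) := by gcongr; norm_num
      _ = 2 ^ ((64 * (12 + j)) * 2 ^ j) := by rw [← pow_add, ← pow_mul]; congr 1; ring
      _ ≤ 2 ^ (2 ^ j * 2 ^ j) :=
        Nat.pow_le_pow_right (by norm_num) (Nat.mul_le_mul_right _ h1)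

lemma ratio_le (j : ℕ) (hj : 11 ≤ j) :
    (({G : SimpleGraph (Fin (nn j)) | G.edgeSet.ncard = mm (nn j) ∧ NoC4 G ∧ IsSplit G}.ncard : ℕ) : ℝ) /
      (({G : SimpleGraph (Fin (nn j)) | G.edgeSet.ncard = mm (nn j) ∧ NoC4 G}.ncard : ℕ) : ℝ)
      ≤ 1 / 2 := by
  have h1 := two_split_le_nn j hj
  have h2 : {G : SimpleGraph (Fin (nn j)) | G.edgeSet.ncard = mm (nn j) ∧ NoC4 G ∧ IsSplit G}.ncard
      ≤ {G : SimpleGraph (Fin (nn j)) | G.edgeSet.ncard = mm (nn j) ∧ IsSplit G}.ncard :=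
    Set.ncard_le_ncard (fun G hG => ⟨hG.1, hG.2.2⟩) (Set.toFinite _)
  refine div_le_of_le_mul₀ (by positivity) (by norm_num) ?_
  have h3 : (2 : ℝ) * ({G : SimpleGraph (Fin (nn j)) |
      G.edgeSet.ncard = mm (nn j) ∧ NoC4 G ∧ IsSplit G}.ncard : ℕ) ≤
      ({G : SimpleGraph (Fin (nn j)) | G.edgeSet.ncard = mm (nn j) ∧ NoC4 G}.ncard : ℕ) := by
    exact_mod_cast (by omega)
  linarith

theorem not_tendsto : ¬ Tendsto (fun n : ℕ =>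
    (({G : SimpleGraph (Fin n) | G.edgeSet.ncard = mm n ∧ NoC4 G ∧ IsSplit G}.ncard : ℕ) : ℝ) /
      (({G : SimpleGraph (Fin n) | G.edgeSet.ncard = mm n ∧ NoC4 G}.ncard : ℕ) : ℝ))
    atTop (nhds 1) := by
  intro h
  have h1 := h.comp nn_tendsto
  have h2 : (1 : ℝ) ≤ 1 / 2 := le_of_tendsto h1 (by
    filter_upwards [eventually_ge_atTop 11] with j hj
    exact ratio_le j hj)
  norm_num at h2

end Pool.Agent.Lib.MP_d302ba_co
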