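import Mathlib
import Pool.Agent.Lib.MP_d302ba_co.Seq

set_option autoImplicit false

namespace Pool.Agent.Lib.MP_d302ba_co

lemma nonempty_noC4 (n m : ℕ) (hm : m ≤ n.choose 2) :
    {G : SimpleGraph (Fin n) | G.edgeSet.ncard = m ∧ NoC4 G}.Nonempty := by
  classical
  have hex : ∃ l, m ≤ (l + 1).choose 2 := ⟨n, hm.trans (Nat.choose_le_choose 2 (by omega))⟩
  rcases Nat.eq_zero_or_pos m with h0 | h0
  · exact ⟨⊥, by simp [h0], fun a b c d _ _ h => absurd h (by simp)⟩
  set l := Nat.find hex with hl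
  have h1 : m ≤ (l + 1).choose 2 := Nat.find_spec hex
  have hl0 : 0 < l := by
    by_contra h
    have : l = 0 := by omega
    rw [this] at h1
    simp at h1
    omega
  have h2 : l.choose 2 < m := by
    have := Nat.find_min hex (m := l - 1) (by omega)
    rw [Nat.sub_add_cancel hl0] at this
    omega
  have h3 : l + 1 ≤ n := by
    by_contra h
    have := Nat.choose_le_choose 2 (by omega : n ≤ l)
    omega
  have h4 : (l + 1).choose 2 = l.choose 2 + l := by
    rw [Nat.choose_succ_succ' l 1, Nat.choose_one_right]; ring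
  obtain ⟨I, -, hI⟩ := Finset.exists_subset_card_eq (s := (Finset.univ : Finset (Fin n))) (n := 1)
    (by simp; omega)
  obtain ⟨K, hK1, hK⟩ := Finset.exists_subset_card_eq (s := Iᶜ) (n := l)
    (by rw [Finset.card_compl]; simp; omega)
  have hd : Disjoint K I := by
    rw [Finset.disjoint_left]
    intro x h1 h2
    have := hK1 h1
    simp [h2] at this
  have h5 := hyb_count K I ∅ ∅ (m - l.choose 2) 0 hd (by simp) (by simp) (by simp) (by simp)
    (by simp)
  rw [hK, hI, show l.choose 2 + (m - l.choose 2) + 0 = m by omega] at h5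
  have h6 : 0 < (l * 1).choose (m - l.choose 2) := Nat.choose_pos (by omega)
  refine Set.nonempty_of_ncard_ne_zero (fun h => ?_)
  rw [h] at h5
  have h7 : 0 < ((((∅ : Finset (Fin n)) ×ˢ (∅ : Finset (Fin n))).powersetCard 0).filter
      (fun T => ∀ R ∈ rects (∅ : Finset (Fin n)) ∅, ¬ R ⊆ T)).card :=
    Finset.card_pos.2 ⟨∅, by simp [rects]⟩
  exact absurd h5 (not_le.2 (Nat.mul_pos h6 h7))

end Pool.Agent.Lib.MP_d302ba_co
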